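import Pool.Agent.Lib.MP_084b88_gt.SK.T12.Q

/-! # MP_084b88_gt: certificate T12, multipliers -/

set_option autoImplicit false

namespace Pool.Agent.Lib.MP_084b88_gt.SK.T12

open Pool.Agent.Lib.MP_084b88_gt.SK

theorem hm0 : MlOK P eX ml0 := mlOK_of hQ E hE ml0 (by decide +kernel)

theorem hns : ∀ x ∈ ns, niC x := by decide +kernel

end Pool.Agent.Lib.MP_084b88_gt.SK.T12
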